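import Pool.Agent.Helper5.KPA.StT

set_option autoImplicit false

namespace Pool.Agent.Helper45.KPA

open Pool.Agent.Helper5.KPA Pool.Agent.Helper52.KP MvPolynomial

theorem hTEV : StTEV := by
  intro m x τ z
  have h := MvPolynomial.eval_eq_eval_mv_eval' z τ (toM m x)
  have h2 : finSuccEquiv ℂ m (toM m x) = x := by
    unfold toM
    exact AlgEquiv.apply_symm_apply _ _
  rw [h2] at h
  exact h

end Pool.Agent.Helper45.KPA
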